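import Pool.Agent.Lib.MP_340815_al.H64.Defs
import Pool.Agent.Lib.MP_340815_al.H75.Raag
import Pool.Agent.Lib.MP_340815_al.Strat

/-!
# MP_340815_al: assembly of the modules M1 (general fundamental group theorem), M2 (topology of the
configuration space) and M3 (combinatorial certificate)

`M2Statement` and `M3Statement` are the exact interfaces; `frozen_of_M2_M3` is the frozen statement
S01141 deduced from them.
-/

set_option autoImplicit false

namespace Pool.Agent.MP_340815_al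

/-- The unordered configuration space of `n` points of the realisation of `G`, exactly as in the
frozen statement. -/
abbrev Conf {V : Type} [DecidableEq V] (G : SimpleGraph V) (n : ℕ) : Type :=
  Quot (fun (f g : {f : Fin n → {p : V → ℝ // ∃ u v : V, (u = v ∨ G.Adj u v) ∧
            ∃ t : ℝ, 0 ≤ t ∧ t ≤ 1 ∧ p = t • Pi.single u (1 : ℝ) + (1 - t) • Pi.single v (1 : ℝ)} //
              Function.Injective f}) => ∃ σ : Equiv.Perm (Fin n), g.1 = f.1 ∘ σ)

/-- The interface of module M2. -/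
def M2Statement : Prop :=
  ∃ s : Conf Gam 3 → UType Gam 3, (∀ p, IsOpen {x | p ≤ s x}) ∧
    (∀ p, IsSimplyConnected {x | p ≤ s x}) ∧ Function.Surjective s

/-- The interface of module M3. -/
def M3Statement : Prop :=
  ∃ (W : Type) (_ : Finite W) (H : SimpleGraph W), H.Connected ∧ ¬ IsCyclic (H75.Raag H) ∧
    ∃ g : UType Gam 3 → UType Gam 3 → H75.Raag H,
      (∀ p q r, p ≤ q → q ≤ r → g p q * g q r = g p r) ∧
      (∃ p0, ∀ p, Relation.EqvGen (fun p q => p ≤ q ∧ g p q = 1) p0 p) ∧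
      Subgroup.closure {a : H75.Raag H | ∃ p q, p ≤ q ∧ g p q = a} = ⊤ ∧
      ∀ (K : Type) [Group K] (h : UType Gam 3 → UType Gam 3 → K),
        (∀ p q r, p ≤ q → q ≤ r → h p q * h q r = h p r) →
        ∃ (u : UType Gam 3 → K) (φ : H75.Raag H →* K),
          ∀ p q, p ≤ q → h p q = (u p)⁻¹ * φ (g p q) * u q

/-- The configuration space is nonempty. -/
theorem conf_nonempty (hM2 : M2Statement) (p : UType Gam 3) : Nonempty (Conf Gam 3) := by
  obtain ⟨s, -, -, hs⟩ := hM2
  obtain ⟨x, -⟩ := hs p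
  exact ⟨x⟩

/-- The frozen statement from the interfaces of M2 and M3. -/
theorem frozen_of_M2_M3 (hM2 : M2Statement) (hM3 : M3Statement) :
  ∃ (n : ℕ) (V : Type) (_ : Finite V) (_ : DecidableEq V) (G : SimpleGraph V),
    2 ≤ n ∧ G.Connected ∧
    ∃ (x : Quot (fun (f g : {f : Fin n → {p : V → ℝ // ∃ u v : V, (u = v ∨ G.Adj u v) ∧
            ∃ t : ℝ, 0 ≤ t ∧ t ≤ 1 ∧ p = t • Pi.single u (1 : ℝ) + (1 - t) • Pi.single v (1 : ℝ)} //
              Function.Injective f}) => ∃ σ : Equiv.Perm (Fin n), g.1 = f.1 ∘ σ)),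
    ∃ (W : Type) (_ : Finite W) (H : SimpleGraph W), H.Connected ∧
      ¬ IsCyclic (PresentedGroup {r : FreeGroup W | ∃ a b : W, H.Adj a b ∧
          r = FreeGroup.of a * FreeGroup.of b * (FreeGroup.of a)⁻¹ * (FreeGroup.of b)⁻¹}) ∧
      Nonempty (FundamentalGroup _ x ≃* PresentedGroup {r : FreeGroup W | ∃ a b : W, H.Adj a b ∧
          r = FreeGroup.of a * FreeGroup.of b * (FreeGroup.of a)⁻¹ * (FreeGroup.of b)⁻¹}) := by
  obtain ⟨W, hW, H, hH, hcyc, g, hg, ⟨p0, hconn⟩, hgen, huniv⟩ := hM3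
  obtain ⟨s, hs, hsc, hsurj⟩ := hM2
  obtain ⟨x, -⟩ := hsurj p0
  exact ⟨3, Fin 10, inferInstance, inferInstance, Gam, by norm_num, Gam_connected, x, W, hW, H,
    hH, hcyc, Pool.Agent.Lib.MP_340815_al.Strat.pi1_equiv hs hsc hsurj g hg p0 hconn hgen huniv x⟩

end Pool.Agent.MP_340815_al
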